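import Mathlib

/-!
# Denser P-position sets for extensions of the AP-avoiding heap game

We construct one extension `R` of the base ruleset `{{d, 2d} : d ≥ 1}` whose set of P-positions
has, up to the factor `24`, as many elements below `x` as the largest subset of `{0, ..., x - 1}`
without a three-term arithmetic progression, for every `x`.  By Behrend's theorem (in Mathlib) its
counting function divided by `x ^ (log 2 / log 3)` tends to infinity.
-/

namespace Pool.Agent.Results.MP_c84e26_co.DenseExtension

open Filter Finset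

/-- A ruleset: a set of finite nonempty sets of positive integers. -/
def IsRuleset (R : Set (Finset ℕ)) : Prop :=
  ∀ M ∈ R, M.Nonempty ∧ ∀ m ∈ M, 0 < m

/-- The base ruleset `M₀ = {{d, 2d} : d ≥ 1}`. -/
def baseRuleset : Set (Finset ℕ) :=
  {M | ∃ d : ℕ, 1 ≤ d ∧ M = {d, 2 * d}}

/-- `R` is an extension of the base ruleset `M₀`: it is `M₀ ∪ M'` for a ruleset `M'`. -/
def IsExtension (R : Set (Finset ℕ)) : Prop :=
  ∃ M' : Set (Finset ℕ), IsRuleset M' ∧ R = baseRuleset ∪ M'

/-- `IsP R n` says that `n` belongs to the set `A_R` of P-positions: there is no `M ∈ R` with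
`max M ≤ n` and `{n - m : m ∈ M} ⊆ A_R` (the elements of the members of a ruleset being
positive, `n - m < n`). -/
def IsP (R : Set (Finset ℕ)) (n : ℕ) : Prop :=
  ¬ ∃ M ∈ R, ∃ h : ∀ m ∈ M, 0 < m ∧ m ≤ n, ∀ m, ∀ hm : m ∈ M, IsP R (n - m)
termination_by n
decreasing_by
  have := h m hm
  omega

/-- The counting function `A_R(x) = #{i ∈ A_R : i < x}` for real `x`. -/
noncomputable def count (R : Set (Finset ℕ)) (x : ℝ) : ℕ :=
  {i : ℕ | (i : ℝ) < x ∧ IsP R i}.ncard

/-! ### The target set -/

lemma exists_block (k : ℕ) :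
    ∃ B : Finset ℕ, B ⊆ range (4 ^ k) ∧ B.card = rothNumberNat (4 ^ k) ∧
      ThreeAPFree (B : Set ℕ) :=
  rothNumberNat_spec (4 ^ k)

/-- An extremal progression-free subset of `{0, ..., 4 ^ k - 1}`. -/
noncomputable def block (k : ℕ) : Finset ℕ := (exists_block k).choose

lemma block_sub (k : ℕ) {b : ℕ} (hb : b ∈ block k) : b < 4 ^ k := by
  have := (exists_block k).choose_spec.1 hb
  simpa using this

lemma block_card (k : ℕ) : (block k).card = rothNumberNat (4 ^ k) :=
  (exists_block k).choose_spec.2.1

lemma block_free (k : ℕ) : ThreeAPFree (block k : Set ℕ) :=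
  (exists_block k).choose_spec.2.2

/-- The target set: `0`, `1` and, for every `k`, the numbers `4 ^ (k + 1) + 2 b` with `b` in an
extremal progression-free subset of `{0, ..., 4 ^ k - 1}`. -/
def target : Set ℕ := {n | n = 0 ∨ n = 1 ∨ ∃ k, ∃ b ∈ block k, n = 4 * 4 ^ k + 2 * b}

lemma zero_mem : 0 ∈ target := Or.inl rfl

lemma one_mem : 1 ∈ target := Or.inr (Or.inl rfl)

lemma scale {i j : ℕ} (h : i < j) : 4 * 4 ^ i ≤ 4 ^ j := by
  calc 4 * 4 ^ i = 4 ^ (i + 1) := by rw [pow_succ, mul_comm]
    _ ≤ 4 ^ j := Nat.pow_le_pow_right (by norm_num) h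

lemma target_free_aux {a b c : ℕ} (ha : a ∈ target) (hb : b ∈ target) (hc : c ∈ target)
    (hac : a ≤ c) (h : a + c = b + b) : a = b := by
  have pos : ∀ k : ℕ, 0 < 4 ^ k := fun k => pow_pos (by norm_num) k
  rcases hc with rfl | rfl | ⟨l, c', hc', rfl⟩
  · omega
  · omega
  have hcl := block_sub l hc'
  rcases hb with rfl | rfl | ⟨j, b', hb', rfl⟩
  · omega
  · have := pos l
    omega
  have hbl := block_sub j hb'
  have hjl : j = l := by
    rcases lt_trichotomy j l with hlt | heq | hgt
    · have := scale hlt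
      omega
    · exact heq
    · have := scale hgt
      omega
  subst hjl
  rcases ha with rfl | rfl | ⟨i, a', ha', rfl⟩
  · omega
  · have := pos j
    omega
  have hal := block_sub i ha'
  have hij : i = j := by
    rcases lt_trichotomy i j with hlt | heq | hgt
    · have := scale hlt
      omega
    · exact heq
    · have := scale hgt
      omega
  subst hij
  have h2 : a' + c' = b' + b' := by omega
  have := block_free i (Finset.mem_coe.2 ha') (Finset.mem_coe.2 hb') (Finset.mem_coe.2 hc') h2
  omega

lemma target_free {a b c : ℕ} (ha : a ∈ target) (hb : b ∈ target) (hc : c ∈ target)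
    (h : a + c = b + b) : a = b := by
  rcases le_total a c with hac | hca
  · exact target_free_aux ha hb hc hac h
  · have := target_free_aux hc hb ha hca (by omega)
    omega

lemma target_not_consecutive {n : ℕ} (hn : 1 ≤ n) (h0 : n ∈ target) (h1 : n + 1 ∈ target) :
    False := by
  have pos : ∀ k : ℕ, 0 < 4 ^ k := fun k => pow_pos (by norm_num) k
  rcases h0 with rfl | rfl | ⟨i, a, ha, rfl⟩
  · omega
  · rcases h1 with h | h | ⟨j, b, hb, h⟩
    · omega
    · omega
    · have := pos j
      omega
  · rcases h1 with h | h | ⟨j, b, hb, h⟩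
    · omega
    · have := pos i
      omega
    · omega

open Classical in
/-- The rule attached to `k`: all the differences `k - a` with `a` in the target set below `k`. -/
noncomputable def rule (k : ℕ) : Finset ℕ :=
  ((range k).filter (fun a => a ∈ target)).image (fun a => k - a)

lemma mem_rule {k m : ℕ} : m ∈ rule k ↔ ∃ a, a < k ∧ a ∈ target ∧ k - a = m := by
  simp [rule, and_assoc]

/-- The additional rules. -/
def extra : Set (Finset ℕ) := {M | ∃ k, k ∉ target ∧ M = rule k}

/-- The extension. -/
def ext : Set (Finset ℕ) := baseRuleset ∪ extra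

lemma two_le_of_notMem {k : ℕ} (hk : k ∉ target) : 2 ≤ k := by
  by_contra h
  have : k = 0 ∨ k = 1 := by omega
  rcases this with rfl | rfl
  · exact hk zero_mem
  · exact hk one_mem

lemma extra_isRuleset : IsRuleset extra := by
  rintro M ⟨k, hk, rfl⟩
  have h2 := two_le_of_notMem hk
  refine ⟨⟨k, mem_rule.2 ⟨0, by omega, zero_mem, by omega⟩⟩, ?_⟩
  intro m hm
  obtain ⟨a, hak, -, rfl⟩ := mem_rule.1 hm
  omega

lemma ext_isExtension : IsExtension ext := ⟨extra, extra_isRuleset, rfl⟩

lemma isP_iff (n : ℕ) : IsP ext n ↔ n ∈ target := by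
  induction n using Nat.strong_induction_on with
  | _ n ih =>
    constructor
    · intro hP
      by_contra hn
      rw [IsP] at hP
      apply hP
      refine ⟨rule n, Or.inr ⟨n, hn, rfl⟩, ?_, ?_⟩
      · intro m hm
        obtain ⟨a, hak, -, rfl⟩ := mem_rule.1 hm
        omega
      · intro m hm
        obtain ⟨a, hak, haA, rfl⟩ := mem_rule.1 hm
        have : n - (n - a) = a := by omega
        rw [this]
        exact (ih a hak).2 haA
    · intro hn
      rw [IsP]
      rintro ⟨M, hM, h, hall⟩
      rcases hM with ⟨d, hd, rfl⟩ | ⟨k, hk, rfl⟩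
      · have h1 := h (2 * d) (by simp)
        have m1 := hall d (by simp)
        have m2 := hall (2 * d) (by simp)
        rw [ih (n - d) (by omega)] at m1
        rw [ih (n - 2 * d) (by omega)] at m2
        have := target_free m2 m1 hn (by omega)
        omega
      · have h2 := two_le_of_notMem hk
        have k0 : k ∈ rule k := mem_rule.2 ⟨0, by omega, zero_mem, by omega⟩
        have k1 : k - 1 ∈ rule k := mem_rule.2 ⟨1, by omega, one_mem, rfl⟩
        have hkn := (h k k0).2
        have hne : k ≠ n := by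
          rintro rfl
          exact hk hn
        have m0 := hall k k0
        have m1 := hall (k - 1) k1
        rw [ih (n - k) (by omega)] at m0
        rw [ih (n - (k - 1)) (by omega)] at m1
        have e : n - (k - 1) = (n - k) + 1 := by omega
        rw [e] at m1
        exact target_not_consecutive (by omega) m0 m1

/-! ### Counting -/

lemma finite_set (R : Set (Finset ℕ)) (x : ℝ) : {i : ℕ | (i : ℝ) < x ∧ IsP R i}.Finite := by
  apply (Set.finite_Iio ⌈x⌉₊).subset
  rintro i ⟨hi, -⟩
  exact Nat.lt_ceil.2 hi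

lemma count_ceil (R : Set (Finset ℕ)) (x : ℝ) : count R x = count R (⌈x⌉₊ : ℝ) := by
  unfold count
  congr 1
  ext i
  simp only [Set.mem_ofPred_eq, Nat.cast_lt, Nat.lt_ceil]

lemma roth_mul_le (m n : ℕ) : rothNumberNat (m * n) ≤ m * rothNumberNat n := by
  induction m with
  | zero => simp
  | succ m ih =>
    calc rothNumberNat ((m + 1) * n) = rothNumberNat (m * n + n) := by rw [Nat.succ_mul]
      _ ≤ rothNumberNat (m * n) + rothNumberNat n := rothNumberNat_add_le _ _
      _ ≤ m * rothNumberNat n + rothNumberNat n := by omega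
      _ = (m + 1) * rothNumberNat n := by ring

lemma roth_le_count (n : ℕ) : rothNumberNat n ≤ 24 * count ext (n : ℝ) := by
  rcases Nat.eq_zero_or_pos n with rfl | hn
  · simp
  have h0 : 1 ≤ count ext (n : ℝ) := by
    unfold count
    exact (Set.ncard_pos (finite_set _ _)).2 ⟨0, by simpa using hn, (isP_iff 0).2 zero_mem⟩
  rcases Nat.lt_or_ge n 24 with hlt | hge
  · have := rothNumberNat_le n
    omega
  · -- the scale `k` with `6 * 4 ^ k ≤ n < 24 * 4 ^ k`
    obtain ⟨k, hk1, hk2⟩ : ∃ k : ℕ, 6 * 4 ^ k ≤ n ∧ n ≤ 24 * 4 ^ k := by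
      have hex : ∃ k : ℕ, n ≤ 24 * 4 ^ k := by
        refine ⟨n, ?_⟩
        have : n < 4 ^ n := Nat.lt_pow_self (by norm_num)
        omega
      classical
      refine ⟨Nat.find hex, ?_, Nat.find_spec hex⟩
      rcases Nat.eq_zero_or_pos (Nat.find hex) with h | h
      · rw [h]
        omega
      · have hmin := Nat.find_min hex (m := Nat.find hex - 1) (by omega)
        have e : (4 : ℕ) ^ (Nat.find hex) = 4 * 4 ^ (Nat.find hex - 1) := by
          rw [← pow_succ']
          congr 1
          omega
        rw [e]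
        omega
    have hle : (block k).card ≤ count ext (n : ℝ) := by
      unfold count
      rw [← Set.ncard_coe_finset (block k)]
      apply Set.ncard_le_ncard_of_injOn (fun b => 4 * 4 ^ k + 2 * b) (ht := finite_set _ _)
      · intro b hb
        have hb' : b ∈ block k := hb
        have hlt := block_sub k hb'
        refine ⟨?_, (isP_iff _).2 (Or.inr (Or.inr ⟨k, b, hb', rfl⟩))⟩
        have : 4 * 4 ^ k + 2 * b < n := by omega
        exact_mod_cast this
      · intro b _ b' _ h
        simp only at h
        omega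
    calc rothNumberNat n ≤ rothNumberNat (24 * 4 ^ k) := rothNumberNat.mono hk2
      _ ≤ 24 * rothNumberNat (4 ^ k) := roth_mul_le _ _
      _ = 24 * (block k).card := by rw [block_card]
      _ ≤ 24 * count ext (n : ℝ) := by omega

/-! ### Growth -/

lemma exponent_lt_one : Real.log 2 / Real.log 3 < 1 := by
  have h3 : 0 < Real.log 3 := Real.log_pos (by norm_num)
  rw [div_lt_one h3]
  exact Real.log_lt_log (by norm_num) (by norm_num)

lemma exponent_pos : 0 < Real.log 2 / Real.log 3 :=
  div_pos (Real.log_pos (by norm_num)) (Real.log_pos (by norm_num))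

lemma tendsto_aux {α : ℝ} (hα : α < 1) :
    Tendsto (fun y : ℝ => y * Real.exp (-4 * √(Real.log y)) / y ^ α) atTop atTop := by
  have h1 : Tendsto (fun t : ℝ => Real.exp (t * ((1 - α) * t - 4))) atTop atTop := by
    apply Real.tendsto_exp_atTop.comp
    apply Tendsto.atTop_mul_atTop₀ tendsto_id
    apply tendsto_atTop_add_const_right
    exact Tendsto.const_mul_atTop (by linarith) tendsto_id
  have h2 : Tendsto (fun y : ℝ => √(Real.log y)) atTop atTop :=
    Real.tendsto_sqrt_atTop.comp Real.tendsto_log_atTop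
  refine (h1.comp h2).congr' ?_
  filter_upwards [eventually_ge_atTop (1 : ℝ)] with y hy
  have hy0 : 0 < y := by linarith
  have hlog : 0 ≤ Real.log y := Real.log_nonneg hy
  have hs : √(Real.log y) * √(Real.log y) = Real.log y := Real.mul_self_sqrt hlog
  simp only [Function.comp]
  rw [Real.rpow_def_of_pos hy0]
  nth_rewrite 3 [← Real.exp_log hy0]
  rw [← Real.exp_add, ← Real.exp_sub]
  congr 1
  linear_combination (1 - α) * hs

/-- There is an extension `R` of the base ruleset such that, for every natural number `n`,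
`A_R(n)` is at least `1/24` of the largest size of a subset of `{0, ..., n - 1}` without
three-term arithmetic progressions, and such that `A_R(x) / x ^ (log 2 / log 3)` tends to infinity
as the real number `x` tends to infinity; in particular its limit superior is infinite. -/
theorem result :
    ∃ R : Set (Finset ℕ), IsExtension R ∧
      (∀ n : ℕ, rothNumberNat n ≤ 24 * count R (n : ℝ)) ∧
      Tendsto (fun x : ℝ => (count R x : ℝ) / x ^ (Real.log 2 / Real.log 3)) atTop atTop := by
  refine ⟨ext, ext_isExtension, roth_le_count, ?_⟩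
  set α := Real.log 2 / Real.log 3 with hα
  have hα1 : α < 1 := exponent_lt_one
  have hα0 : 0 < α := exponent_pos
  have h1 : Tendsto (fun x : ℝ => ((⌈x⌉₊ : ℕ) : ℝ)) atTop atTop :=
    tendsto_natCast_atTop_atTop.comp (tendsto_nat_ceil_atTop)
  have h2 := (tendsto_aux hα1).comp h1
  have h3 := h2.const_mul_atTop (r := (1 / 24 : ℝ)) (by norm_num)
  refine tendsto_atTop_mono' _ ?_ h3
  filter_upwards [eventually_gt_atTop (0 : ℝ)] with x hx
  have hn0 : 0 < ⌈x⌉₊ := Nat.ceil_pos.2 hx
  have hnpos : (0 : ℝ) < (⌈x⌉₊ : ℝ) := by exact_mod_cast hn0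
  have hb : (⌈x⌉₊ : ℝ) * Real.exp (-4 * √(Real.log (⌈x⌉₊ : ℝ))) ≤ rothNumberNat ⌈x⌉₊ :=
    Behrend.roth_lower_bound
  have hc : (rothNumberNat ⌈x⌉₊ : ℝ) ≤ 24 * (count ext x : ℝ) := by
    rw [count_ceil]
    exact_mod_cast roth_le_count ⌈x⌉₊
  have hxle : x ^ α ≤ (⌈x⌉₊ : ℝ) ^ α :=
    Real.rpow_le_rpow hx.le (Nat.le_ceil x) hα0.le
  have hxpos : 0 < x ^ α := Real.rpow_pos_of_pos hx α
  simp only [Function.comp]
  calc 1 / 24 * ((⌈x⌉₊ : ℝ) * Real.exp (-4 * √(Real.log (⌈x⌉₊ : ℝ))) / (⌈x⌉₊ : ℝ) ^ α)
      ≤ 1 / 24 * ((⌈x⌉₊ : ℝ) * Real.exp (-4 * √(Real.log (⌈x⌉₊ : ℝ))) / x ^ α) := by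
        apply mul_le_mul_of_nonneg_left _ (by norm_num)
        apply div_le_div_of_nonneg_left _ hxpos hxle
        positivity
    _ ≤ (count ext x : ℝ) / x ^ α := by
        rw [← mul_div_assoc]
        apply div_le_div_of_nonneg_right _ hxpos.le
        linarith

end Pool.Agent.Results.MP_c84e26_co.DenseExtension
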